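import Pool.Agent.Helper53.CTG.Goals
import Pool.Agent.Helper46.TE.MOK

/-!
# PROJECT CTG (MP_8b4d68_lc): packet CTG-FIN
-/

namespace Pool.Agent.Helper47.CTG

open Pool.Agent.Helper53.CTG
open Pool.Agent.Helper1.TE (NTM USPACE NUnamb NumMach)
open Pool.Agent.Helper65.LinSpace (dig tab nrec ifz eq01 le01 lt01 capPow Ctx LS)
open Pool.Agent.Helper46.TE (enc_nat_zero enc_prod_zero)

theorem enc_start (ok : ℕ → ℕ → ℕ → ℕ → ℕ) (tst : ℕ → ℕ) (mal i : ℕ) :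
    Ctx.enc (machM ok tst mal).start i = 0 := by
  have h0 : ∀ j, Ctx.enc (0 : ℕ) j = 0 := enc_nat_zero
  have h2 : ∀ j, Ctx.enc ((0 : ℕ), (0 : ℕ)) j = 0 := enc_prod_zero _ h0 h0
  have h3 : ∀ j, Ctx.enc ((0 : ℕ), (0 : ℕ), (0 : ℕ)) j = 0 := enc_prod_zero _ h0 h2
  have h4 : ∀ j, Ctx.enc ((0 : ℕ), (0 : ℕ), (0 : ℕ), (0 : ℕ)) j = 0 := enc_prod_zero _ h0 h3
  have h5 : ∀ j, Ctx.enc ((0 : ℕ), (0 : ℕ), (0 : ℕ), (0 : ℕ), (0 : ℕ)) j = 0 :=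
    enc_prod_zero _ h0 h4
  have h6 : ∀ j, Ctx.enc ((0 : ℕ), (0 : ℕ), (0 : ℕ), (0 : ℕ), (0 : ℕ), (0 : ℕ)) j = 0 :=
    enc_prod_zero _ h0 h5
  have h7 : ∀ j, Ctx.enc ((0 : ℕ), (0 : ℕ), (0 : ℕ), (0 : ℕ), (0 : ℕ), (0 : ℕ), (0 : ℕ)) j = 0 :=
    enc_prod_zero _ h0 h6
  show Ctx.enc (((0, 0, 0, 0, 0, 0, 0), (0, 0, 0), (0, 0, 0, 0, 0, 0, 0), (0, 0, 0)) : Sta) i = 0
  exact enc_prod_zero _ h7 (enc_prod_zero _ h3 (enc_prod_zero _ h7 h3)) i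

/-- The language of the machine has small unambiguous space. -/
theorem langM_uspace
    (hCOM : ∀ {α : Type} [Ctx α] (N : NumMach α), LS N.addr →
      LS (fun p : α × ℕ × ℕ => N.next p.1 p.2.1 p.2.2) → LS N.acc → (∀ a, N.acc a ≤ 1) →
      (∀ i, Ctx.enc N.start i = 0) → N.acc N.start = 0 →
      ∃ (k : ℕ) (M : NTM k) (c : ℕ), ∀ (w : List Bool) (S : ℕ),
        (∀ a, N.Reach w a → ∀ i, Ctx.enc a i < 2 ^ S) → NUnamb N w →
        (M.Accepts w ↔ ∃ a, N.Reach w a ∧ N.acc a ≠ 0) ∧ M.Within w ((c * (S + 1) : ℕ) : ℝ) ∧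
        M.Unambiguous w)
    (hLS : LSOK) (hMach : MachOK)
    (hUN : ∀ (ok : ℕ → ℕ → ℕ → ℕ → ℕ) (tst : ℕ → ℕ) (mal : ℕ) (w : List Bool),
      NUnamb (machM ok tst mal) w)
    (hBd : BoundOK) (ok : ℕ → ℕ → ℕ → ℕ → ℕ) (tst : ℕ → ℕ) (mal : ℕ)
    (hok : LS (fun x : ℕ × ℕ × ℕ × ℕ => ok x.1 x.2.1 x.2.2.1 x.2.2.2)) (htst : LS tst)
    (s : ℕ → ℝ) (hs : ∀ n, 0 ≤ s n) (K1 K2 : ℝ) (hK1 : 0 ≤ K1) (hK2 : 0 ≤ K2)
    (h₁ : ∀ (w : List Bool) (N q b c : ℕ), Full ok w N q b c →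
      ((Et N q b c + 1 : ℕ) : ℝ) ≤ K1 * (s w.length + 1))
    (h₂ : ∀ n : ℕ, ((Nat.log 2 (n + 1) + 5 : ℕ) : ℝ) ≤ K2 * (s n + 1)) :
    LangM ok tst mal ∈ USPACE s := by
  obtain ⟨l1, l2, l3⟩ := hLS ok tst mal hok htst
  obtain ⟨k, M, c, hM⟩ := hCOM (machM ok tst mal) l1 l2 l3
    (fun a => by
      show eq01 a.mo 7 ≤ 1
      unfold eq01
      split_ifs <;> omega)
    (enc_start ok tst mal) rfl
  refine ⟨k, M, c * (K1 + K2 + 1), fun w => ?_⟩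
  have hsw := hs w.length
  set T : ℝ := (K1 + K2) * (s w.length + 1) with hT
  have hT0 : 0 ≤ T := by positivity
  have hb : ∀ a, (machM ok tst mal).Reach w a → ∀ i, Ctx.enc a i < 2 ^ (Nat.floor T) := by
    intro a ha i
    rcases hBd ok tst mal w a ((hMach ok tst mal w).1 a ha) with ⟨N, q, b, c', hF, henc⟩ | henc
    · refine lt_of_lt_of_le (henc i) (Nat.pow_le_pow_right (by norm_num) ?_)
      apply Nat.le_floor
      refine (h₁ w N q b c' hF).trans ?_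
      rw [hT]
      nlinarith
    · have h1 : Nat.log 2 (w.length + 1) + 5 ≤ Nat.floor T := by
        apply Nat.le_floor
        refine (h₂ w.length).trans ?_
        rw [hT]
        nlinarith
      have h2 : w.length + 1 < 2 ^ (Nat.log 2 (w.length + 1) + 1) :=
        Nat.lt_pow_succ_log_self (by norm_num) _
      have h3 : 2 ^ (Nat.log 2 (w.length + 1) + 5) = 16 * 2 ^ (Nat.log 2 (w.length + 1) + 1) := by
        rw [pow_succ, pow_succ, pow_succ, pow_succ]; ring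
      calc Ctx.enc a i ≤ 2 * w.length + 9 := henc i
        _ < 2 ^ (Nat.log 2 (w.length + 1) + 5) := by rw [h3]; omega
        _ ≤ 2 ^ (Nat.floor T) := Nat.pow_le_pow_right (by norm_num) h1
  obtain ⟨hacc, hwi, hun⟩ := hM w (Nat.floor T) hb (hUN ok tst mal w)
  refine ⟨?_, ?_, hun⟩
  · rw [hacc, (hMach ok tst mal w).2]
  · intro x hx i
    refine (hwi x hx i).trans ?_
    have h1 : (Nat.floor T : ℝ) ≤ T := Nat.floor_le hT0
    have hc0 : (0 : ℝ) ≤ c := Nat.cast_nonneg c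
    push_cast
    rw [mul_assoc]
    refine mul_le_mul_of_nonneg_left ?_ hc0
    rw [hT] at h1
    nlinarith

theorem ls_tst1 : LS (fun v : ℕ => eq01 v 1) := by fun_prop

theorem ls_tst2 : LS (fun v : ℕ => 1 - eq01 v 1) := by fun_prop

theorem ok_of_full {ok : ℕ → ℕ → ℕ → ℕ → ℕ} {w : List Bool} {N q b c : ℕ}
    (hF : Full ok w N q b c) : ok N q b c ≠ 0 := by
  have := hF.1
  unfold Hd at this
  tauto

/-- Packet CTG-FIN. -/
theorem gFIN : GoalFIN := by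
  intro hCOM hLS hMach hUN hBd hFU hLG hAS1 hAS2 hAS3
  obtain ⟨K2, hK2, hA3⟩ := hAS3
  refine ⟨fun C => ?_, fun C => ?_⟩
  · obtain ⟨K1, hK1, hA1⟩ := hAS1 C
    obtain ⟨ok, hok⟩ : ∃ ok : ℕ → ℕ → ℕ → ℕ → ℕ, ok = fun N q b c =>
      le01 (q * b * Nat.log 2 b) (C * N) * le01 c (C * q) := ⟨_, rfl⟩
    have hokD : ∀ N q b c : ℕ, ok N q b c ≠ 0 ↔ q * b * Nat.log 2 b ≤ C * N ∧ c ≤ C * q := by
      intro N q b c
      rw [hok]
      simp only [le01]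
      split_ifs with h1 h2 h2
      · simp [h1, h2]
      · simp [h1, h2]
      · simp [h1, h2]
      · simp [h1, h2]
    have hokLS : LS (fun x : ℕ × ℕ × ℕ × ℕ => ok x.1 x.2.1 x.2.2.1 x.2.2.2) := by
      rw [hok]
      fun_prop
    have hs : ∀ n : ℕ, (0 : ℝ) ≤ Real.log n := fun n => Real.log_natCast_nonneg n
    have key : ∀ (tst : ℕ → ℕ) (mal : ℕ), LS tst →
        LangM ok tst mal ∈ USPACE (fun n => Real.log n) := fun tst mal htst => by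
      refine langM_uspace hCOM hLS hMach hUN hBd ok tst mal hokLS htst _ hs K1 K2 hK1 hK2
        (fun w N q b c hF => ?_) (fun n => (hA3 n).1)
      obtain ⟨e1, e2⟩ := (hokD N q b c).1 (ok_of_full hF)
      exact hA1 ok w N q b c hF e1 e2
    obtain ⟨e1, e2⟩ := hLG hFU ok
      {x | x.2.1 * x.2.2.1 * Nat.log 2 x.2.2.1 ≤ C * x.1 ∧ x.2.2.2 ≤ C * x.2.1}
      (fun N q b c => by
        rw [hokD N q b c]
        rfl)
    rw [e2, e1]
    exact ⟨key _ 0 ls_tst1, key _ 1 ls_tst2⟩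
  · obtain ⟨K1, hK1, hA2⟩ := hAS2 C
    obtain ⟨ok, hok⟩ : ∃ ok : ℕ → ℕ → ℕ → ℕ → ℕ, ok = fun N q b c =>
      le01 (q ^ 2 * Nat.log 2 b) (C * N) * le01 N (C * q ^ 2 * (Nat.log 2 b + 1)) := ⟨_, rfl⟩
    have hokD : ∀ N q b c : ℕ, ok N q b c ≠ 0 ↔
        q ^ 2 * Nat.log 2 b ≤ C * N ∧ N ≤ C * q ^ 2 * (Nat.log 2 b + 1) := by
      intro N q b c
      rw [hok]
      simp only [le01]
      split_ifs with h1 h2 h2
      · simp [h1, h2]
      · simp [h1, h2]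
      · simp [h1, h2]
      · simp [h1, h2]
    have hokLS : LS (fun x : ℕ × ℕ × ℕ × ℕ => ok x.1 x.2.1 x.2.2.1 x.2.2.2) := by
      rw [hok]
      simp only [pow_two]
      fun_prop
    have hs : ∀ n : ℕ, (0 : ℝ) ≤ s2 n := fun n =>
      mul_nonneg (Real.log_natCast_nonneg n) (Real.sqrt_nonneg _)
    have key : ∀ (tst : ℕ → ℕ) (mal : ℕ), LS tst →
        LangM ok tst mal ∈ USPACE s2 := fun tst mal htst => by
      refine langM_uspace hCOM hLS hMach hUN hBd ok tst mal hokLS htst _ hs K1 K2 hK1 hK2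
        (fun w N q b c hF => ?_) (fun n => (hA3 n).2)
      obtain ⟨e1, e2⟩ := (hokD N q b c).1 (ok_of_full hF)
      exact hA2 ok w N q b c hF e1 e2
    obtain ⟨e1, e2⟩ := hLG hFU ok
      {x | x.2.1 ^ 2 * Nat.log 2 x.2.2.1 ≤ C * x.1 ∧
        x.1 ≤ C * x.2.1 ^ 2 * (Nat.log 2 x.2.2.1 + 1)}
      (fun N q b c => by
        rw [hokD N q b c]
        rfl)
    rw [e2, e1]
    exact ⟨key _ 0 ls_tst1, key _ 1 ls_tst2⟩

end Pool.Agent.Helper47.CTG
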